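import Mathlib
import Pool.Agent.R463.Line
import Pool.Agent.R463.EX10

set_option autoImplicit false

/-!
# The exact local structure of the almost prime values of polynomials along the line `x + y = n`
-/

namespace Pool.Agent.Results.MP_0da313_nt.ExactBlocks

open Polynomial Finset Filter
open scoped Polynomial.Bivariate
open Pool.Agent.R463.PS

/-- the polynomial `g_{k,n} (x) = f_k (x, n - x)`; the outer variable of `f k` is `y` -/
noncomputable def gp {m : ℕ} (f : Fin m → ℤ[X][Y]) (n : ℕ) (k : Fin m) : ℤ[X] :=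
  (f k).eval (C (n : ℤ) - X)

/-- the conditions on `n`: all `g_{k,n}` are irreducible and not constant, and for every prime `p` there is
`x` such that `p` divides no `g_{k,n} (x)` -/
def Admissible {m : ℕ} (f : Fin m → ℤ[X][Y]) (n : ℕ) : Prop :=
  (∀ k, Irreducible (gp f n k)) ∧ (∀ k, 1 ≤ (gp f n k).natDegree) ∧
    ∀ p : ℕ, p.Prime → ∃ x : ℕ, ∀ k, ¬ (p : ℤ) ∣ (gp f n k).eval (x : ℤ)

/-- no value `f_k (x, n - x)` has a prime factor `p ≤ n ^ (1 / r)` -/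
def Good {m : ℕ} (f : Fin m → ℤ[X][Y]) (n r x : ℕ) : Prop :=
  ∀ p : ℕ, p.Prime → (p : ℝ) ≤ (n : ℝ) ^ (1 / (r : ℝ)) → ∀ k, ¬ (p : ℤ) ∣ (gp f n k).eval (x : ℤ)

open Classical in
/-- the number of the residues `x` modulo `p` for which `p` divides some `f_k (x, n - x)` -/
noncomputable def om {m : ℕ} (f : Fin m → ℤ[X][Y]) (n p : ℕ) : ℕ :=
  ((range p).filter (fun x : ℕ => ∃ k, (p : ℤ) ∣ (gp f n k).eval (x : ℤ))).card

/-- the density: the product of `1 - om(p) / p` over the primes `p ≤ n ^ (1 / r)` -/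
noncomputable def V {m : ℕ} (f : Fin m → ℤ[X][Y]) (n r : ℕ) : ℝ :=
  ∏ p ∈ (Icc 1 ⌊(n : ℝ) ^ (1 / (r : ℝ))⌋₊).filter Nat.Prime, (1 - (om f n p : ℝ) / p)

open Classical in
/-- the number of the residues `x` modulo `p` for which `p` divides some `f_k (x + h, n - x - h)`, `h ∈ J` -/
noncomputable def omJ {m : ℕ} (f : Fin m → ℤ[X][Y]) (n : ℕ) (J : Finset ℕ) (p : ℕ) : ℕ :=
  ((range p).filter (fun x : ℕ => ∃ h ∈ J, ∃ k, (p : ℤ) ∣ (gp f n k).eval ((x + h : ℕ) : ℤ))).card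

/-- the density of the pattern: the product of `1 - omJ(p) / p` over the primes `p ≤ n ^ (1 / r)` -/
noncomputable def VJ {m : ℕ} (f : Fin m → ℤ[X][Y]) (n : ℕ) (J : Finset ℕ) (r : ℕ) : ℝ :=
  ∏ p ∈ (Icc 1 ⌊(n : ℝ) ^ (1 / (r : ℝ))⌋₊).filter Nat.Prime, (1 - (omJ f n J p : ℝ) / p)

open Classical in
/-- the number of the `x` in `(Z, Z + H]` for which the good integers in `[x, x + L]` are exactly the
integers `x + h` with `h ∈ J` -/
noncomputable def Blocks {m : ℕ} (f : Fin m → ℤ[X][Y]) (n : ℕ) (J : Finset ℕ) (L r Z H : ℕ) : ℕ :=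
  ((Ioc Z (Z + H)).filter (fun x => ∀ h ≤ L, Good f n r (x + h) ↔ h ∈ J)).card

lemma good_iff {m : ℕ} (f : Fin m → ℤ[X][Y]) (n r x : ℕ) : Good f n r x ↔ Sifted (lns f n) n r x := Iff.rfl

lemma V_eq {m : ℕ} (f : Fin m → ℤ[X][Y]) (n r : ℕ) : V f n r = Pool.Agent.R463.PS.V (lns f n) n r := rfl

lemma VJ_eq {m : ℕ} (f : Fin m → ℤ[X][Y]) (n : ℕ) (J : Finset ℕ) (r : ℕ) :
    VJ f n J r = VH (lns f n) J n r := rfl

lemma Blocks_eq {m : ℕ} (f : Fin m → ℤ[X][Y]) (n : ℕ) (J : Finset ℕ) (L r Z H : ℕ) :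
    Blocks f n J L r Z H = exS (lns f n) J L n r Z H := rfl

/-- **The exact local structure along the lines `x + y = n`.** Let `f_1, ..., f_m` be arbitrary polynomials in
`x`, `y`. For `δ, θ, ε > 0`, `K`, `x₀` there is `r₀` such that for all `r ≥ r₀`, all `C` and all large `n` which
are admissible, for which no two of the polynomials `f_k (x, n - x)` are translates of each other by some
`1 ≤ t ≤ n ^ δ`, up to the sign, and `V ≤ C / log n`, for ALL intervals `(Z, Z + H]` with `H ≥ n ^ θ`, ALL sets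
`J` of at most `K` natural numbers with `0 ∈ J` and all `L ≥ max J` with `L V ≤ x₀`: the number of the `x` in
the interval for which the good integers in `[x, x + L]` are exactly the `x + h`, `h ∈ J`, is
`H VJ exp (- L V)`, up to the factor `1 ± ε`. -/
theorem result (m : ℕ) (f : Fin m → ℤ[X][Y]) (δ θ : ℝ) (hδ : 0 < δ) (hθ : 0 < θ) (K : ℕ) (x₀ ε : ℝ)
    (hε : 0 < ε) :
    ∃ r₀ : ℕ, ∀ r : ℕ, r₀ ≤ r → ∀ C₀ : ℝ, ∀ᶠ n : ℕ in atTop, Admissible f n →
      (∀ i j, ∀ t : ℕ, 1 ≤ t → (t : ℝ) ≤ (n : ℝ) ^ δ → gp f n i ≠ (gp f n j).comp (X + C (t : ℤ)) ∧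
        gp f n i ≠ -(gp f n j).comp (X + C (t : ℤ))) →
      V f n r ≤ C₀ / Real.log n →
      ∀ Z H : ℕ, (n : ℝ) ^ θ ≤ H → ∀ J : Finset ℕ, J.card ≤ K → 0 ∈ J → ∀ L : ℕ,
        (∀ h ∈ J, h ≤ L) → L * V f n r ≤ x₀ →
        |(Blocks f n J L r Z H : ℝ) - H * VJ f n J r * Real.exp (-(L * V f n r))| ≤
          ε * (H * VJ f n J r * Real.exp (-(L * V f n r))) := by
  obtain ⟨D, E, hE, hsys⟩ := lns_system f
  obtain ⟨r₀, h⟩ := blocks' m D K E δ θ x₀ ε hE hδ hθ hε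
  refine ⟨r₀, fun r hr C₀ => ?_⟩
  filter_upwards [h r hr C₀, hsys] with n h1 h2 hadm htr hV Z H hH J hJ h0 L hL hx
  rw [V_eq] at hV hx ⊢
  rw [Blocks_eq, VJ_eq]
  exact h1 _ (h2 _ hadm.1 hadm.2.1 hadm.2.2 htr) hV Z H hH J hJ h0 L hL hx

end Pool.Agent.Results.MP_0da313_nt.ExactBlocks
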