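import Mathlib
import Pool.Agent.R463.Line

set_option autoImplicit false

/-!
# Values of polynomials along the line `x + y = n`: prime `x`, almost prime other values
-/

namespace Pool.Agent.Results.MP_0da313_nt.LawAfterPrimes

open Polynomial Finset Filter
open scoped Polynomial.Bivariate
open Pool.Agent.R463.PS

/-- the polynomial `g_{k,n} (x) = f_k (x, n - x)`; the outer variable of `f k` is `y` -/
noncomputable def gp {m : ℕ} (f : Fin m → ℤ[X][Y]) (n : ℕ) (k : Fin m) : ℤ[X] :=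
  (f k).eval (C (n : ℤ) - X)

/-- the conditions on `n`: all `g_{k,n}` are irreducible and not constant, and for every prime `p` there is
`x` such that `p` divides no `g_{k,n} (x)` -/
def Admissible {m : ℕ} (f : Fin m → ℤ[X][Y]) (n : ℕ) : Prop :=
  (∀ k, Irreducible (gp f n k)) ∧ (∀ k, 1 ≤ (gp f n k).natDegree) ∧
    ∀ p : ℕ, p.Prime → ∃ x : ℕ, ∀ k, ¬ (p : ℤ) ∣ (gp f n k).eval (x : ℤ)

/-- no value `f_k (x, n - x)` has a prime factor `p ≤ n ^ (1 / r)` -/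
def Good {m : ℕ} (f : Fin m → ℤ[X][Y]) (n r x : ℕ) : Prop :=
  ∀ p : ℕ, p.Prime → (p : ℝ) ≤ (n : ℝ) ^ (1 / (r : ℝ)) → ∀ k, ¬ (p : ℤ) ∣ (gp f n k).eval (x : ℤ)

open Classical in
/-- the number of the residues `x` modulo `p` for which `p` divides some `f_k (x, n - x)` -/
noncomputable def om {m : ℕ} (f : Fin m → ℤ[X][Y]) (n p : ℕ) : ℕ :=
  ((range p).filter (fun x : ℕ => ∃ k, (p : ℤ) ∣ (gp f n k).eval (x : ℤ))).card

/-- the density: the product of `1 - om(p) / p` over the primes `p ≤ n ^ (1 / r)` -/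
noncomputable def V {m : ℕ} (f : Fin m → ℤ[X][Y]) (n r : ℕ) : ℝ :=
  ∏ p ∈ (Icc 1 ⌊(n : ℝ) ^ (1 / (r : ℝ))⌋₊).filter Nat.Prime, (1 - (om f n p : ℝ) / p)

open Classical in
/-- the product of `(1 - om(p) / p) / (1 - 1 / p)` over the primes `p ≤ n ^ (1 / r)` -/
noncomputable def W {m : ℕ} (f : Fin m → ℤ[X][Y]) (n r : ℕ) : ℝ :=
  ∏ p ∈ (Icc 1 ⌊(n : ℝ) ^ (1 / (r : ℝ))⌋₊).filter Nat.Prime, (1 - (om f n p : ℝ) / p) / (1 - 1 / (p : ℝ))

open Classical in
/-- the good PRIMES `x` in `(A, A + L]` -/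
noncomputable def P {m : ℕ} (f : Fin m → ℤ[X][Y]) (n r A L : ℕ) : Finset ℕ :=
  (Ioc A (A + L)).filter (fun x => x.Prime ∧ Good f n r x)

open Classical in
/-- the number of the good integers in `(x, x + T]` -/
noncomputable def Next {m : ℕ} (f : Fin m → ℤ[X][Y]) (n r T x : ℕ) : ℕ :=
  ((Ioc x (x + T)).filter (fun z => Good f n r z)).card

lemma good_iff {m : ℕ} (f : Fin m → ℤ[X][Y]) (n r x : ℕ) : Good f n r x ↔ Sifted (lns f n) n r x := Iff.rfl

lemma V_eq {m : ℕ} (f : Fin m → ℤ[X][Y]) (n r : ℕ) : V f n r = Pool.Agent.R463.PS.V (lns f n) n r := rfl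

lemma P_eq {m : ℕ} (f : Fin m → ℤ[X][Y]) (n r A L : ℕ) : P f n r A L = Pr 1 0 (lns f n) n r A L := by
  classical
  unfold P Pr
  apply filter_congr
  intro x _
  rw [good_iff, one_mul, add_zero]

/-- **Values along the lines `x + y = n` with prime `x`.** Let `f_1, ..., f_m` be polynomials in `x`, `y`, one of
them `x`. For `δ', θ, δ > 0`, `x₀` and `0 < ε ≤ 1` there is `r₀` such that for all `r ≥ r₀` and ALL large
admissible `n` for which no two of the polynomials `f_k (x, n - x)` are translates of each other by some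
`1 ≤ t ≤ n ^ δ'`, up to the sign, all `z ≥ n ^ θ` and all windows `(A, A + L]` in `(0, z]` with `L ≥ δ z`:
(1) the number of the good PRIMES `x` in the window is `(1 + η) L W / log z`, `|η| ≤ ε`;
(2) for `T V ≤ x₀` the number of the good integers in `(x, x + T]`, `x` running over the primes in (1), has
the Poisson law of mean `T V`, up to `ε`. -/
theorem result (m : ℕ) (f : Fin m → ℤ[X][Y]) (hx : ∃ k, f k = C X) (δ' θ δ : ℝ) (hδ' : 0 < δ')
    (hθ : 0 < θ) (hδ : 0 < δ) (hδ1 : δ ≤ 1) (x₀ ε : ℝ) (hε : 0 < ε) (hε1 : ε ≤ 1) :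
    ∃ r₀ : ℕ, 2 ≤ r₀ ∧ ∀ r : ℕ, r₀ ≤ r → ∀ᶠ n : ℕ in atTop, Admissible f n →
      (∀ i j, ∀ t : ℕ, 1 ≤ t → (t : ℝ) ≤ (n : ℝ) ^ δ' → gp f n i ≠ (gp f n j).comp (X + C (t : ℤ)) ∧
        gp f n i ≠ -(gp f n j).comp (X + C (t : ℤ))) →
      ∀ z : ℕ, (n : ℝ) ^ θ ≤ z → ∀ A L : ℕ, δ * z ≤ L → A + L ≤ z →
        |((P f n r A L).card : ℝ) * Real.log z - L * W f n r| ≤ ε * (L * W f n r) ∧
        ∀ T : ℕ, T * V f n r ≤ x₀ → ∀ B : Finset ℕ,
          |(((P f n r A L).filter (fun x => Next f n r T x ∈ B)).card : ℝ) -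
            (P f n r A L).card *
              ∑ j ∈ B, Real.exp (-(T * V f n r)) * (T * V f n r) ^ j / j.factorial| ≤
            ε * (P f n r A L).card := by
  obtain ⟨D, E, hE, hsys⟩ := lns_system f
  obtain ⟨k₀, hk₀⟩ := hx
  have hX : ∀ n, lns f n k₀ = X := by
    intro n
    unfold lns ln
    rw [hk₀, eval_C]
  obtain ⟨r₀, hr₀, h⟩ := after 1 m D squarefree_one E δ' θ δ hE hδ' hθ hδ hδ1 x₀ ε hε hε1
  refine ⟨r₀, hr₀, fun r hr => ?_⟩
  obtain ⟨C₀, hC₀, hV⟩ := V_le_fixed X irreducible_X (by rw [natDegree_X]) (by rw [leadingCoeff_X]; norm_num)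
    (fun p hp => ⟨1, by
      rw [eval_X]
      intro hd
      have h1 : p ∣ 1 := by exact_mod_cast hd
      exact hp.one_lt.ne' (Nat.dvd_one.1 h1)⟩) r (hr₀.trans hr)
  filter_upwards [h r hr C₀, hV, hsys] with n h1 h2 h3 hadm htr z hz A L hL hAL
  obtain ⟨h4, h5⟩ := h1 _ 0 (h3 _ hadm.1 hadm.2.1 hadm.2.2 htr) (Nat.coprime_one_left 0)
    (fun p x hp hpa => absurd (Nat.dvd_one.1 hpa) hp.one_lt.ne')
    ⟨k₀, fun x => by rw [hX]; simp⟩ (h2 m _ ⟨k₀, hX n⟩)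
    (by rw [Nat.cast_zero]; positivity) z hz A L hL hAL
  rw [P_eq]
  exact ⟨h4, h5⟩

end Pool.Agent.Results.MP_0da313_nt.LawAfterPrimes
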