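import Pool.Agent.R460.GH.Conv

/-!
# Prime values along `x + y = n`: pairs of linear polynomials, residue classes of EVERY modulus
# `q ≤ X ^ (2 / 3 - ρ)`

We consider the families `f₁ = (u + 2) x + u y + a`, `f₂ = v x + (v + 2) y + b` (`u`, `v ≥ 0` even, `a`, `b` odd),
which are admissible in the sense of the problem. For almost all `n`, also in all residue classes modulo all
`q ≤ X ^ (2 / 3 - ρ)`, we prove the asymptotic formula for the number of the `x` in a window for which both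
`|f₁(x, n - x)|` and `|f₂(x, n - x)|` are prime.

The theorem on Goldbach pairs behind it is project GH of helper460 (`R460/GH`).
-/

set_option autoImplicit false

namespace Pool.Agent.Results.MP_0da313_nt.LinearPairsEveryModulus

open Finset
open Pool.Agent.H560R3.GB (sing)

/-- `g_n(x) = f(x, n - x)` as a polynomial in `x` -/
noncomputable def gp (f : MvPolynomial (Fin 2) ℤ) (n : ℕ) : Polynomial ℤ :=
  MvPolynomial.aeval ![Polynomial.X, Polynomial.C (n : ℤ) - Polynomial.X] f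

/-- The family `f₁, …, f_m` is admissible: for all large `n` all the polynomials `g_{k,n}` are irreducible
in `ℤ[x]` and no prime divides their product at every integer. -/
def Admissible {m : ℕ} (f : Fin m → MvPolynomial (Fin 2) ℤ) : Prop :=
  ∃ N₀ : ℕ, ∀ n : ℕ, N₀ ≤ n → (∀ k, Irreducible (gp (f k) n)) ∧
    ∀ p : ℕ, p.Prime → ¬ ∀ x : ℤ, (p : ℤ) ∣ (∏ k, gp (f k) n).eval x

/-- all `|f_k(x, y)|` are prime -/
def AllPrime {m : ℕ} (f : Fin m → MvPolynomial (Fin 2) ℤ) (x y : ℤ) : Prop :=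
  ∀ k, (MvPolynomial.eval ![x, y] (f k)).natAbs.Prime

open Classical in
/-- The number of the `y₁ < x ≤ y₂` with `0 < x < n` such that all `|f_k(x, n - x)|` are prime. -/
noncomputable def reps {m : ℕ} (f : Fin m → MvPolynomial (Fin 2) ℤ) (n y₁ y₂ : ℕ) : ℕ :=
  ((Ioc y₁ y₂).filter (fun x : ℕ => x < n ∧ AllPrime f x ((n : ℤ) - x))).card

/-- The family `(u + 2) x + u y + a`, `v x + (v + 2) y + b`. -/
noncomputable def family (u v : ℕ) (a b : ℤ) : Fin 2 → MvPolynomial (Fin 2) ℤ :=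
  ![MvPolynomial.C ((u : ℤ) + 2) * MvPolynomial.X 0 + MvPolynomial.C (u : ℤ) * MvPolynomial.X 1 + MvPolynomial.C a,
    MvPolynomial.C (v : ℤ) * MvPolynomial.X 0 + MvPolynomial.C ((v : ℤ) + 2) * MvPolynomial.X 1 + MvPolynomial.C b]

/-- The sum `f₁(x, n - x) + f₂(x, n - x) = (u + v + 2) n + a + b`. -/
def M (u v : ℕ) (a b : ℤ) (n : ℕ) : ℕ := (((u : ℤ) + v + 2) * n + a + b).toNat

/-- The number `n` is good: it is `x + y` with `x, y > 0` and `|f₁(x, y)|`, `|f₂(x, y)|` prime, and the number of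
such `x` is the predicted one up to the factor `1 ± ε` in all windows `(y₁, y₂]` of `[0, n]` of length at least
`n / (log n)^A` (among them the whole interval). -/
def Good (ε : ℝ) (A : ℕ) (u v : ℕ) (a b : ℤ) (n : ℕ) : Prop :=
  (∃ x y : ℕ, 0 < x ∧ 0 < y ∧ x + y = n ∧ AllPrime (family u v a b) x y) ∧
  ∀ y₁ y₂ : ℕ, y₁ < y₂ → y₂ ≤ n → (n : ℝ) / Real.log n ^ A ≤ (y₂ : ℝ) - y₁ →
    |(reps (family u v a b) n y₁ y₂ : ℝ) - sing (M u v a b n) * (2 * ((y₂ : ℝ) - y₁) / Real.log n ^ 2)| ≤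
      ε * (sing (M u v a b n) * (2 * ((y₂ : ℝ) - y₁) / Real.log n ^ 2))

/-- The positive integers `n ≤ X`, `n ≡ c (mod q)`, which are not good. -/
def exceptional (ε : ℝ) (A : ℕ) (u v : ℕ) (a b : ℤ) (X q : ℕ) (c : ℤ) : Set ℕ :=
  {n : ℕ | 0 < n ∧ n ≤ X ∧ (n : ℤ) ≡ c [ZMOD q] ∧ ¬ Good ε A u v a b n}

/-! ### the polynomials -/

lemma gp_zero (u v : ℕ) (a b : ℤ) (n : ℕ) : gp (family u v a b 0) n =
    Polynomial.C 2 * Polynomial.X + Polynomial.C ((u : ℤ) * n + a) := by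
  unfold gp family
  simp only [Matrix.cons_val_zero, map_add, map_mul, MvPolynomial.aeval_X, Matrix.cons_val_one,
    MvPolynomial.aeval_C, Polynomial.algebraMap_eq, Matrix.cons_val_fin_one, map_ofNat]
  ring

lemma gp_one (u v : ℕ) (a b : ℤ) (n : ℕ) : gp (family u v a b 1) n =
    Polynomial.C (-2) * Polynomial.X + Polynomial.C (((v : ℤ) + 2) * n + b) := by
  unfold gp family
  simp only [Matrix.cons_val_zero, map_add, map_mul, MvPolynomial.aeval_X, Matrix.cons_val_one,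
    MvPolynomial.aeval_C, Polynomial.algebraMap_eq, Matrix.cons_val_fin_one, map_ofNat, map_neg]
  ring

lemma ev_zero (u v : ℕ) (a b x y : ℤ) :
    MvPolynomial.eval ![x, y] (family u v a b 0) = (u + 2) * x + u * y + a := by
  unfold family
  simp

lemma ev_one (u v : ℕ) (a b x y : ℤ) :
    MvPolynomial.eval ![x, y] (family u v a b 1) = v * x + (v + 2) * y + b := by
  unfold family
  simp

lemma allPrime_iff (u v : ℕ) (a b x y : ℤ) : AllPrime (family u v a b) x y ↔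
    ((u + 2) * x + u * y + a).natAbs.Prime ∧ (v * x + (v + 2) * y + b).natAbs.Prime := by
  unfold AllPrime
  rw [Fin.forall_fin_two, ev_zero, ev_one]

lemma odd_rel {s : ℤ} (hs : Odd s) : IsRelPrime (2 : ℤ) s := by
  have : IsCoprime (2 : ℤ) s := by
    obtain ⟨t, ht⟩ := hs
    exact ⟨-t, 1, by rw [ht]; ring⟩
  exact this.isRelPrime

theorem admissible (u v : ℕ) (hu : 2 ∣ u) (hv : 2 ∣ v) (a b : ℤ) (ha : Odd a) (hb : Odd b) :
    Admissible (family u v a b) := by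
  refine ⟨0, fun n _ => ⟨?_, ?_⟩⟩
  · have h1 : Odd ((u : ℤ) * n + a) := by
      apply Even.add_odd _ ha
      obtain ⟨w, rfl⟩ := hu
      push_cast
      exact ⟨w * n, by ring⟩
    have h2 : Odd (((v : ℤ) + 2) * n + b) := by
      apply Even.add_odd _ hb
      obtain ⟨w, rfl⟩ := hv
      push_cast
      exact ⟨w * n + n, by ring⟩
    rw [Fin.forall_fin_two, gp_zero, gp_one]
    refine ⟨Polynomial.irreducible_C_mul_X_add_C (by norm_num) (odd_rel h1),
      Polynomial.irreducible_C_mul_X_add_C (by norm_num) ?_⟩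
    exact (odd_rel h2).neg_left
  · intro p hp hall
    rw [Fin.prod_univ_two, gp_zero, gp_one] at hall
    have hall' : ∀ x : ℤ, (p : ℤ) ∣ (2 * x + ((u : ℤ) * n + a)) * (-2 * x + (((v : ℤ) + 2) * n + b)) := by
      intro x
      have := hall x
      simpa only [Polynomial.eval_mul, Polynomial.eval_add, Polynomial.eval_C, Polynomial.eval_X] using this
    obtain ⟨s, hs⟩ : ∃ s, s = (u : ℤ) * n + a := ⟨_, rfl⟩
    obtain ⟨t, ht⟩ : ∃ t, t = ((v : ℤ) + 2) * n + b := ⟨_, rfl⟩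
    rw [← hs, ← ht] at hall'
    have hso : Odd s := by
      rw [hs]
      apply Even.add_odd _ ha
      obtain ⟨w, rfl⟩ := hu
      push_cast
      exact ⟨w * n, by ring⟩
    have hto : Odd t := by
      rw [ht]
      apply Even.add_odd _ hb
      obtain ⟨w, rfl⟩ := hv
      push_cast
      exact ⟨w * n + n, by ring⟩
    have hpp : Prime (p : ℤ) := Nat.prime_iff_prime_int.1 hp
    have hp2 : ¬ (p : ℤ) ∣ 2 := by
      intro h
      have h3 := hall' 0
      have e : (2 * (0 : ℤ) + s) * (-2 * 0 + t) = s * t := by ring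
      rw [e] at h3
      have h4 : (p : ℤ) = 2 := by
        have h5 : p ∣ 2 := by exact_mod_cast h
        have := (Nat.prime_dvd_prime_iff_eq hp Nat.prime_two).1 h5
        exact_mod_cast this
      rw [h4] at h3
      have h6 : Odd (s * t) := hso.mul hto
      exact (Int.not_even_iff_odd.2 h6) (even_iff_two_dvd.2 h3)
    -- three values
    have h0 := hall' 0
    have h1 := hall' 1
    have hm := hall' (-1)
    have h9 : (p : ℤ) ∣ 8 := by
      have e : (8 : ℤ) = 2 * ((2 * 0 + s) * (-2 * 0 + t)) - (2 * 1 + s) * (-2 * 1 + t) -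
          (2 * (-1) + s) * (-2 * (-1) + t) := by ring
      rw [e]
      exact dvd_sub (dvd_sub (Dvd.dvd.mul_left h0 2) h1) hm
    have h10 : (p : ℤ) ∣ 2 ^ 3 := by norm_num; exact h9
    exact hp2 (hpp.dvd_of_dvd_pow h10)

/-! ### growth of logarithms -/

lemma ev_log (C : ℝ) : ∃ n₀ : ℕ, ∀ n : ℕ, n₀ ≤ n → C ≤ Real.log n := by
  have h := (Real.tendsto_log_atTop.comp tendsto_natCast_atTop_atTop).eventually_ge_atTop C
  obtain ⟨n₀, h0⟩ := Filter.eventually_atTop.1 h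
  exact ⟨n₀, fun n hn => h0 n hn⟩

lemma ev_pow (A : ℕ) (C s : ℝ) (hs : 0 < s) : ∃ n₀ : ℕ, ∀ n : ℕ, n₀ ≤ n →
    C * Real.log n ^ A ≤ (n : ℝ) ^ s := by
  have h1 := isLittleO_log_rpow_rpow_atTop (s := s) (A : ℝ) hs
  have h2 := h1.bound (c := 1 / (|C| + 1)) (by positivity)
  have h3 := (tendsto_natCast_atTop_atTop (R := ℝ)).eventually h2
  obtain ⟨n₀, h0⟩ := Filter.eventually_atTop.1 h3
  refine ⟨n₀ + 1, fun n hn => ?_⟩
  have h4 := h0 n (by omega)
  have hn0 : (0 : ℝ) ≤ n := Nat.cast_nonneg n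
  have hl : 0 ≤ Real.log n := Real.log_natCast_nonneg n
  rw [Real.norm_of_nonneg (by positivity), Real.norm_of_nonneg (by positivity), Real.rpow_natCast] at h4
  have h5 : C * Real.log n ^ A ≤ (|C| + 1) * Real.log n ^ A := by
    apply mul_le_mul_of_nonneg_right _ (by positivity)
    linarith [le_abs_self C]
  refine h5.trans ?_
  calc (|C| + 1) * Real.log n ^ A ≤ (|C| + 1) * (1 / (|C| + 1) * (n : ℝ) ^ s) :=
        mul_le_mul_of_nonneg_left h4 (by positivity)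
    _ = (n : ℝ) ^ s := by
        field_simp

/-! ### the windows -/

/-- the sum of the two values -/
lemma M_int (u v : ℕ) (a b : ℤ) (n : ℕ) (hn : a.natAbs + b.natAbs ≤ n) :
    ((M u v a b n : ℕ) : ℤ) = ((u : ℤ) + v + 2) * n + a + b := by
  unfold M
  have h1 : (0 : ℤ) ≤ (u : ℤ) * n := by positivity
  have h2 : (0 : ℤ) ≤ (v : ℤ) * n := by positivity
  have h3 : ((u : ℤ) + v + 2) * n = (u : ℤ) * n + (v : ℤ) * n + 2 * n := by ring
  rw [h3]
  omega

set_option maxHeartbeats 4000000 in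
lemma window (u v : ℕ) (hu : 2 ∣ u) (hv : 2 ∣ v) (a b : ℤ) (ha : Odd a) (hb : Odd b) (n y₁ y₂ : ℕ)
    (h12 : y₁ < y₂) (hy : y₂ ≤ n) (hn : a.natAbs + b.natAbs + 4 ≤ n) :
    ∃ P₁ P₂ : ℕ, P₂ ≤ M u v a b n ∧
      2 * ((y₂ : ℤ) - y₁) - (a.natAbs + b.natAbs) ≤ (P₂ : ℤ) - P₁ ∧
      (P₂ : ℤ) - P₁ ≤ 2 * ((y₂ : ℤ) - y₁) + (a.natAbs + b.natAbs) ∧
      Pool.Agent.W93.PG.cnt (M u v a b n) P₁ P₂ ≤ reps (family u v a b) n y₁ y₂ + 1 ∧
      reps (family u v a b) n y₁ y₂ ≤ Pool.Agent.W93.PG.cnt (M u v a b n) P₁ P₂ + (a.natAbs + b.natAbs) := by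
  classical
  have hM := M_int u v a b n (by omega)
  obtain ⟨U, hU⟩ : ∃ U : ℕ, U = u * n := ⟨_, rfl⟩
  obtain ⟨V, hV⟩ : ∃ V : ℕ, V = v * n := ⟨_, rfl⟩
  have hUe : 2 ∣ U := by rw [hU]; exact Dvd.dvd.mul_right hu n
  have hVe : 2 ∣ V := by rw [hV]; exact Dvd.dvd.mul_right hv n
  have hM' : ((M u v a b n : ℕ) : ℤ) = U + V + 2 * n + a + b := by
    rw [hM, hU, hV]; push_cast; ring
  obtain ⟨m, hm⟩ : ∃ m, m = M u v a b n := ⟨_, rfl⟩
  rw [← hm] at hM' ⊢
  obtain ⟨ta, hta⟩ := ha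
  obtain ⟨tb, htb⟩ := hb
  obtain ⟨U', hU'⟩ := hUe
  obtain ⟨V', hV'⟩ := hVe
  -- the two values
  have hval : ∀ x : ℕ, AllPrime (family u v a b) x ((n : ℤ) - x) ↔
      (2 * (x : ℤ) + U + a).natAbs.Prime ∧ ((V : ℤ) + 2 * n - 2 * x + b).natAbs.Prime := by
    intro x
    rw [allPrime_iff]
    have e1 : ((u : ℤ) + 2) * x + u * ((n : ℤ) - x) + a = 2 * (x : ℤ) + U + a := by
      rw [hU]; push_cast; ring
    have e2 : (v : ℤ) * x + (v + 2) * ((n : ℤ) - x) + b = (V : ℤ) + 2 * n - 2 * x + b := by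
      rw [hV]; push_cast; ring
    rw [e1, e2]
  refine ⟨((U : ℤ) + 2 * y₁ + a).toNat, (min ((U : ℤ) + 2 * y₂ + a) m).toNat, ?_, ?_, ?_, ?_, ?_⟩
  · have := Int.toNat_le_toNat (min_le_right ((U : ℤ) + 2 * y₂ + a) (m : ℤ))
    rwa [Int.toNat_natCast] at this
  · rcases le_total ((U : ℤ) + 2 * y₂ + a) (m : ℤ) with h | h
    · rw [min_eq_left h]; omega
    · rw [min_eq_right h]; omega
  · rcases le_total ((U : ℤ) + 2 * y₂ + a) (m : ℤ) with h | h
    · rw [min_eq_left h]; omega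
    · rw [min_eq_right h]; omega
  · unfold Pool.Agent.W93.PG.cnt reps
    have hins : (insert n ((Ioc y₁ y₂).filter (fun x : ℕ => x < n ∧
        AllPrime (family u v a b) x ((n : ℤ) - x)))).card ≤ ((Ioc y₁ y₂).filter (fun x : ℕ => x < n ∧
        AllPrime (family u v a b) x ((n : ℤ) - x))).card + 1 := card_insert_le _ _
    refine le_trans ?_ hins
    apply card_le_card_of_injOn (fun p : ℕ => (((p : ℤ) - U - a) / 2).toNat)
    · intro p hp
      rw [mem_coe, mem_filter, mem_Ioc] at hp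
      obtain ⟨⟨h1, h2⟩, h3, h4⟩ := hp
      have h3' := h3.pos
      have h4' := h4.pos
      have h5 : (p : ℤ) ≤ (U : ℤ) + 2 * y₂ + a ∧ (p : ℤ) ≤ m := by
        rcases le_total ((U : ℤ) + 2 * y₂ + a) (m : ℤ) with h | h
        · rw [min_eq_left h] at h2; omega
        · rw [min_eq_right h] at h2; omega
      have hmp : m - p + p = m := by omega
      have hmo : m % 2 = 0 := by omega
      have hpo : p % 2 = 1 := by
        rcases h3.eq_two_or_odd with h | h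
        · exfalso
          rcases h4.eq_two_or_odd with h' | h'
          · omega
          · omega
        · exact h
      obtain ⟨x, hx⟩ : ∃ x : ℕ, x = (((p : ℤ) - U - a) / 2).toNat := ⟨_, rfl⟩
      have hx2 : 2 * (x : ℤ) + U + a = p := by omega
      change (((p : ℤ) - U - a) / 2).toNat ∈ (insert n ((Ioc y₁ y₂).filter (fun x : ℕ => x < n ∧
        AllPrime (family u v a b) x ((n : ℤ) - x))) : Finset ℕ)
      rw [← hx, mem_insert, mem_filter, mem_Ioc]
      rcases Nat.lt_or_ge x n with hxn | hxn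
      · right
        refine ⟨⟨by omega, by omega⟩, hxn, (hval x).2 ⟨?_, ?_⟩⟩
        · rw [hx2, Int.natAbs_natCast]; exact h3
        · have e : ((V : ℤ) + 2 * n - 2 * x + b) = ((m - p : ℕ) : ℤ) := by omega
          rw [e, Int.natAbs_natCast]; exact h4
      · left; omega
    · intro p hp p' hp' h
      rw [mem_coe, mem_filter, mem_Ioc] at hp hp'
      obtain ⟨⟨h1, h2⟩, h3, h4⟩ := hp
      obtain ⟨⟨h1', h2'⟩, h3', h4'⟩ := hp'
      have q1 := h3.pos
      have q2 := h4.pos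
      have q1' := h3'.pos
      have q2' := h4'.pos
      have hpo : p % 2 = 1 := by
        rcases h3.eq_two_or_odd with h | h
        · exfalso
          rcases h4.eq_two_or_odd with h' | h'
          · omega
          · omega
        · exact h
      have hpo' : p' % 2 = 1 := by
        rcases h3'.eq_two_or_odd with h | h
        · exfalso
          rcases h4'.eq_two_or_odd with h' | h'
          · omega
          · omega
        · exact h
      simp only at h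
      omega
  · unfold Pool.Agent.W93.PG.cnt reps
    have hsub : ((Ioc y₁ y₂).filter (fun x : ℕ => x < n ∧ AllPrime (family u v a b) x ((n : ℤ) - x))) ⊆
        ((Ioc y₁ y₂).filter (fun x : ℕ => x < n ∧ AllPrime (family u v a b) x ((n : ℤ) - x) ∧
          0 < 2 * (x : ℤ) + U + a ∧ 0 < (V : ℤ) + 2 * n - 2 * x + b)) ∪
        (range a.natAbs ∪ Ioo (n - b.natAbs) n) := by
      intro x hx
      rw [mem_filter, mem_Ioc] at hx
      obtain ⟨⟨h1, h2⟩, h3, h4⟩ := hx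
      rw [mem_union, mem_union, mem_filter, mem_Ioc, mem_range, mem_Ioo]
      by_cases c1 : 0 < 2 * (x : ℤ) + U + a
      · by_cases c2 : 0 < (V : ℤ) + 2 * n - 2 * x + b
        · left; exact ⟨⟨h1, h2⟩, h3, h4, c1, c2⟩
        · right; right; omega
      · right; left; omega
    refine (card_le_card hsub).trans ((card_union_le _ _).trans ?_)
    apply add_le_add
    · apply card_le_card_of_injOn (fun x : ℕ => (2 * (x : ℤ) + U + a).toNat)
      · intro x hx
        rw [mem_coe, mem_filter, mem_Ioc] at hx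
        obtain ⟨⟨h1, h2⟩, h3, h4, h5, h6⟩ := hx
        obtain ⟨g1, g2⟩ := (hval x).1 h4
        obtain ⟨p, hp⟩ : ∃ p : ℕ, p = (2 * (x : ℤ) + U + a).toNat := ⟨_, rfl⟩
        change (2 * (x : ℤ) + U + a).toNat ∈ (((Ioc (((U : ℤ) + 2 * y₁ + a).toNat)
          ((min ((U : ℤ) + 2 * y₂ + a) (m : ℤ)).toNat)).filter
            (fun p => p.Prime ∧ (m - p).Prime) : Finset ℕ) : Set ℕ)
        rw [← hp, mem_coe, mem_filter, mem_Ioc]
        have hp2 : 2 * (x : ℤ) + U + a = p := by omega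
        have g1' : p.Prime := by
          have : (2 * (x : ℤ) + U + a).natAbs = p := by omega
          rwa [this] at g1
        have g2' : (m - p).Prime := by
          have : ((V : ℤ) + 2 * n - 2 * x + b).natAbs = m - p := by omega
          rwa [this] at g2
        refine ⟨⟨by omega, ?_⟩, g1', g2'⟩
        rcases le_total ((U : ℤ) + 2 * y₂ + a) (m : ℤ) with h | h
        · rw [min_eq_left h]; omega
        · rw [min_eq_right h]; omega
      · intro x hx x' hx' h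
        rw [mem_coe, mem_filter, mem_Ioc] at hx hx'
        have h1 := hx.2.2.2.1
        have h2 := hx'.2.2.2.1
        simp only at h
        omega
    · refine (card_union_le _ _).trans ?_
      rw [card_range, Nat.card_Ioo]
      omega

lemma abs_combine {c s R R0 δ : ℝ} (hs : 0 ≤ s) (hR0 : 0 ≤ R0) (hδ : 0 < δ) (hδ8 : δ ≤ 1 / 8)
    (h1 : |c - s * R| ≤ δ * (s * R)) (h2 : |R - R0| ≤ 3 * δ * R0) :
    |c - s * R0| ≤ 5 * δ * (s * R0) := by
  rw [abs_le] at h1 h2 ⊢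
  have e1 : R ≤ (1 + 3 * δ) * R0 := by linarith [h2.2]
  have e2 : s * R ≤ s * ((1 + 3 * δ) * R0) := mul_le_mul_of_nonneg_left e1 hs
  have e3 : s * ((1 - 3 * δ) * R0) ≤ s * R := mul_le_mul_of_nonneg_left (by linarith [h2.1]) hs
  have e4 : 0 ≤ s * R0 := mul_nonneg hs hR0
  have e5 : δ * (s * R) ≤ δ * (s * ((1 + 3 * δ) * R0)) := mul_le_mul_of_nonneg_left e2 hδ.le
  have e6 : δ * (s * ((1 + 3 * δ) * R0)) ≤ 11 / 8 * δ * (s * R0) := by
    have : δ * (s * ((1 + 3 * δ) * R0)) = (1 + 3 * δ) * (δ * (s * R0)) := by ring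
    rw [this]
    have h7 : 0 ≤ δ * (s * R0) := mul_nonneg hδ.le e4
    nlinarith
  have e7 : s * ((1 + 3 * δ) * R0) = s * R0 + 3 * (δ * (s * R0)) := by ring
  have e8 : s * ((1 - 3 * δ) * R0) = s * R0 - 3 * (δ * (s * R0)) := by ring
  have e9 : 0 ≤ δ * (s * R0) := mul_nonneg hδ.le e4
  constructor
  · nlinarith [h1.1]
  · nlinarith [h1.2]

lemma ratio_close {D D' l k δ : ℝ} (hD : 0 < D) (hl : 0 < l) (hδ : 0 < δ) (hδ8 : δ ≤ 1 / 8)
    (h1 : |D' - D| ≤ δ * D) (h2 : |k - l| ≤ δ / 4 * l) :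
    |D' / k ^ 2 - D / l ^ 2| ≤ 3 * δ * (D / l ^ 2) := by
  rw [abs_le] at h1 h2
  have hk : 0 < k := by nlinarith [h2.1]
  have hl2 : 0 < l ^ 2 := by positivity
  have hk2 : 0 < k ^ 2 := by positivity
  have hδδ : δ * δ ≤ δ * (1 / 8) := mul_le_mul_of_nonneg_left hδ8 hδ.le
  have a1 : k ^ 2 ≤ (1 + δ) * l ^ 2 := by
    have h9 : k ^ 2 ≤ ((1 + δ / 4) * l) ^ 2 := pow_le_pow_left₀ hk.le (by linarith [h2.2]) 2
    have h10 : ((1 + δ / 4) * l) ^ 2 = (1 + δ / 2 + δ * δ / 16) * l ^ 2 := by ring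
    refine h9.trans ?_
    rw [h10]
    apply mul_le_mul_of_nonneg_right _ hl2.le
    linarith
  have a2 : (1 - δ) * l ^ 2 ≤ k ^ 2 := by
    have h9 : ((1 - δ / 4) * l) ^ 2 ≤ k ^ 2 :=
      pow_le_pow_left₀ (mul_nonneg (by linarith) hl.le) (by linarith [h2.1]) 2
    have h10 : ((1 - δ / 4) * l) ^ 2 = (1 - δ / 2 + δ * δ / 16) * l ^ 2 := by ring
    have h11 : 0 ≤ δ * δ := mul_nonneg hδ.le hδ.le
    rw [h10] at h9
    refine le_trans ?_ h9
    apply mul_le_mul_of_nonneg_right _ hl2.le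
    linarith
  have hR : 0 < D / l ^ 2 := by positivity
  have b1 : D' / k ^ 2 ≤ (1 + 3 * δ) * (D / l ^ 2) := by
    rw [div_le_iff₀ hk2]
    have c1 : D' ≤ (1 + δ) * D := by linarith [h1.2]
    have c2 : (1 + δ) * D ≤ (1 + 3 * δ) * (1 - δ) * D := by
      apply mul_le_mul_of_nonneg_right _ hD.le
      nlinarith
    have c3 : (1 + 3 * δ) * (D / l ^ 2) * ((1 - δ) * l ^ 2) ≤ (1 + 3 * δ) * (D / l ^ 2) * k ^ 2 :=
      mul_le_mul_of_nonneg_left a2 (by positivity)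
    have c4 : (1 + 3 * δ) * (D / l ^ 2) * ((1 - δ) * l ^ 2) = (1 + 3 * δ) * (1 - δ) * D := by
      field_simp
    linarith
  have b2 : (1 - 3 * δ) * (D / l ^ 2) ≤ D' / k ^ 2 := by
    rw [le_div_iff₀ hk2]
    have c1 : (1 - δ) * D ≤ D' := by linarith [h1.1]
    have c2 : (1 - 3 * δ) * (1 + δ) * D ≤ (1 - δ) * D := by
      apply mul_le_mul_of_nonneg_right _ hD.le
      nlinarith
    have c3 : (1 - 3 * δ) * (D / l ^ 2) * k ^ 2 ≤ (1 - 3 * δ) * (D / l ^ 2) * ((1 + δ) * l ^ 2) := by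
      apply mul_le_mul_of_nonneg_left a1
      apply mul_nonneg _ hR.le
      linarith
    have c4 : (1 - 3 * δ) * (D / l ^ 2) * ((1 + δ) * l ^ 2) = (1 - 3 * δ) * (1 + δ) * D := by
      field_simp
    linarith
  rw [abs_le]
  constructor <;> linarith

set_option maxHeartbeats 4000000 in
lemma good_of (ε : ℝ) (hε : 0 < ε) (A : ℕ) (u v : ℕ) (hu : 2 ∣ u) (hv : 2 ∣ v) (a b : ℤ)
    (ha : Odd a) (hb : Odd b) : ∃ δ : ℝ, 0 < δ ∧ ∃ N₁ : ℕ,
    a.natAbs + b.natAbs + 4 ≤ N₁ ∧ ∀ n : ℕ, N₁ ≤ n →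
      Pool.Agent.W93.PG.WinP δ (A + 1) (M u v a b n) → Good ε A u v a b n := by
  obtain ⟨E, hE⟩ : ∃ E : ℕ, E = a.natAbs + b.natAbs := ⟨_, rfl⟩
  obtain ⟨K, hK⟩ : ∃ K : ℕ, K = u + v + 2 := ⟨_, rfl⟩
  obtain ⟨δ, hδdef⟩ : ∃ δ : ℝ, δ = min ε 1 / 8 := ⟨_, rfl⟩
  have hδ : 0 < δ := by rw [hδdef]; positivity
  have hδ8 : δ ≤ 1 / 8 := by
    rw [hδdef]
    have := min_le_right ε 1
    linarith
  have hδε : 8 * δ ≤ ε := by
    rw [hδdef]
    have := min_le_left ε 1
    linarith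
  have hε7 : 6 * δ ≤ ε := by linarith
  obtain ⟨n1, h1⟩ := ev_log (2 ^ (A + 2) * (K + 1) + 4 * Real.log (K + 1) / δ + 1)
  obtain ⟨n2, h2⟩ := ev_pow (A + 2) (16 * (E + 1) / δ) 1 (by norm_num)
  refine ⟨δ, hδ, n1 + n2 + E + 4, by omega, fun n hn hW => ?_⟩
  have a1 := h1 n (by omega)
  have a2 := h2 n (by omega)
  rw [Real.rpow_one] at a2
  obtain ⟨m, hm⟩ : ∃ m, m = M u v a b n := ⟨_, rfl⟩
  have hMint := M_int u v a b n (by omega)
  rw [← hm] at hW hMint
  have hE0 : (0 : ℝ) ≤ E := Nat.cast_nonneg E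
  have hK0 : (2 : ℝ) ≤ K := by exact_mod_cast (by omega : 2 ≤ K)
  have hn1 : (1 : ℝ) ≤ n := by exact_mod_cast (by omega : 1 ≤ n)
  have hnpos : (0 : ℝ) < n := by linarith
  have hmint' : (m : ℤ) = (K : ℤ) * n + a + b := by rw [hMint, hK]; push_cast; ring
  have hK2 : (2 : ℤ) * n ≤ (K : ℤ) * n := by
    apply mul_le_mul_of_nonneg_right _ (by positivity)
    omega
  have hm1 : m ≤ K * n + n := by
    have : ((K * n + n : ℕ) : ℤ) = (K : ℤ) * n + n := by push_cast; ring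
    omega
  have hm2 : n ≤ m := by omega
  obtain ⟨l, hl⟩ : ∃ l, l = Real.log (n : ℝ) := ⟨_, rfl⟩
  rw [← hl] at a1 a2
  have hlogK : 0 ≤ Real.log ((K : ℝ) + 1) := Real.log_nonneg (by linarith)
  have p2 : (1 : ℝ) ≤ 2 ^ (A + 2) * (K + 1) := by
    have : (1 : ℝ) ≤ 2 ^ (A + 2) := one_le_pow₀ (by norm_num)
    nlinarith
  have hq0 : 0 ≤ 4 * Real.log ((K : ℝ) + 1) / δ := by positivity
  have hl2 : 2 ≤ l := by linarith
  have hl1 : 1 ≤ l := by linarith
  have hlpos : 0 < l := by linarith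
  have hlK : Real.log ((K : ℝ) + 1) ≤ δ / 4 * l := by
    have : 4 * Real.log ((K : ℝ) + 1) / δ ≤ l := by linarith
    rw [div_le_iff₀ hδ] at this
    linarith
  have hlb : 2 ^ (A + 2) * ((K : ℝ) + 1) ≤ l := by linarith
  obtain ⟨k, hk⟩ : ∃ k, k = Real.log (m : ℝ) := ⟨_, rfl⟩
  have hm1' : (m : ℝ) ≤ (K + 1) * n := by
    have : (m : ℝ) ≤ K * n + n := by exact_mod_cast hm1
    linarith
  have hm2' : (n : ℝ) ≤ m := by exact_mod_cast hm2
  have hkl1 : l ≤ k := by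
    rw [hl, hk]
    exact Real.log_le_log hnpos hm2'
  have hkl2 : k ≤ l + Real.log ((K : ℝ) + 1) := by
    rw [hl, hk, add_comm, ← Real.log_mul (by positivity) (by positivity)]
    exact Real.log_le_log (by linarith) hm1'
  have hlc : |k - l| ≤ δ / 4 * l := by
    rw [abs_le]
    constructor
    · have : 0 ≤ δ / 4 * l := by positivity
      linarith
    · linarith
  have hkpos : 0 < k := by linarith
  have hC0 : 0 ≤ 16 * ((E : ℝ) + 1) / δ := by positivity
  obtain ⟨S, hS⟩ : ∃ S, S = sing m := ⟨_, rfl⟩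
  have hs1 : 1 ≤ S := by
    rw [hS]
    exact Pool.Agent.R460.GS.one_le_sing _
  have hs0 : 0 ≤ S := by linarith
  -- windows
  have key : ∀ y₁ y₂ : ℕ, y₁ < y₂ → y₂ ≤ n → (n : ℝ) / l ^ A ≤ (y₂ : ℝ) - y₁ →
      |(reps (family u v a b) n y₁ y₂ : ℝ) - S * (2 * ((y₂ : ℝ) - y₁) / l ^ 2)| ≤
        6 * δ * (S * (2 * ((y₂ : ℝ) - y₁) / l ^ 2)) := by
    intro y₁ y₂ h12 hy2 hlen
    obtain ⟨P₁, P₂, c1, c2, c2u, c3, c4⟩ := window u v hu hv a b ha hb n y₁ y₂ h12 hy2 (by omega)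
    rw [← hm] at c1 c3 c4
    have hEz : (E : ℤ) = a.natAbs + b.natAbs := by rw [hE]; push_cast; rfl
    rw [← hEz] at c2 c2u
    rw [← hE] at c4
    have c2' : 2 * ((y₂ : ℝ) - y₁) - E ≤ (P₂ : ℝ) - P₁ := by exact_mod_cast c2
    have c2u' : (P₂ : ℝ) - P₁ ≤ 2 * ((y₂ : ℝ) - y₁) + E := by exact_mod_cast c2u
    obtain ⟨D, hD⟩ : ∃ D, D = 2 * ((y₂ : ℝ) - y₁) := ⟨_, rfl⟩
    rw [← hD] at c2' c2u' ⊢
    have hlen' : 2 * ((n : ℝ) / l ^ A) ≤ D := by rw [hD]; linarith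
    have hED : 16 * ((E : ℝ) + 1) ≤ δ * (D / l ^ 2) := by
      have f1 : 16 * ((E : ℝ) + 1) / δ ≤ D / l ^ 2 := by
        rw [le_div_iff₀ (by positivity)]
        have f2 : 16 * ((E : ℝ) + 1) / δ * l ^ 2 ≤ n / l ^ A := by
          rw [le_div_iff₀ (by positivity)]
          calc 16 * ((E : ℝ) + 1) / δ * l ^ 2 * l ^ A = 16 * ((E : ℝ) + 1) / δ * l ^ (A + 2) := by ring
            _ ≤ n := a2
        have f3 : 0 ≤ (n : ℝ) / l ^ A := by positivity
        linarith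
      rw [div_le_iff₀ hδ] at f1
      linarith
    have hDpos : 0 < D := by
      have : 0 < (n : ℝ) / l ^ A := by positivity
      linarith
    have hDl : D / l ^ 2 ≤ D := div_le_self hDpos.le (one_le_pow₀ hl1)
    have hδD : δ * (D / l ^ 2) ≤ δ * D := mul_le_mul_of_nonneg_left hDl hδ.le
    have hDD : |((P₂ : ℝ) - P₁) - D| ≤ δ * D := by
      rw [abs_le]
      constructor <;> linarith
    have hPP : 7 / 8 * D ≤ (P₂ : ℝ) - P₁ := by
      have := (abs_le.1 hDD).1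
      nlinarith
    have hP12 : P₁ < P₂ := by
      have : (P₁ : ℝ) < P₂ := by linarith
      exact_mod_cast this
    have hwin := hW P₁ P₂ hP12 c1 (by
      rw [← hk]
      refine le_trans ?_ hPP
      rw [div_le_iff₀ (by positivity)]
      have f1 : 2 * (n : ℝ) ≤ D * l ^ A := by
        have : 2 * ((n : ℝ) / l ^ A) = 2 * n / l ^ A := by ring
        rw [this, div_le_iff₀ (by positivity)] at hlen'
        exact hlen'
      have f2 : l ^ A ≤ k ^ A := pow_le_pow_left₀ hlpos.le hkl1 A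
      have f3 : D * l ^ A ≤ D * k ^ A := mul_le_mul_of_nonneg_left f2 hDpos.le
      have f4 : (2 : ℝ) ^ (A + 2) * (K + 1) ≤ k := hlb.trans hkl1
      have f5 : 0 ≤ D * k ^ A := by positivity
      have f6 : (1 : ℝ) ≤ 2 ^ (A + 2) := one_le_pow₀ (by norm_num)
      have f7 : (K : ℝ) + 1 ≤ k := by nlinarith
      have f8 : D * k ^ A * (K + 1) ≤ D * k ^ A * k := mul_le_mul_of_nonneg_left f7 f5
      have f9 : 2 * (m : ℝ) ≤ (K + 1) * (D * k ^ A) := by
        calc 2 * (m : ℝ) ≤ (K + 1) * (2 * n) := by linarith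
          _ ≤ (K + 1) * (D * k ^ A) := mul_le_mul_of_nonneg_left (by linarith) (by linarith)
      calc (m : ℝ) ≤ 7 / 8 * (2 * m) := by nlinarith
        _ ≤ 7 / 8 * (D * k ^ A * k) := by linarith
        _ = 7 / 8 * D * k ^ (A + 1) := by ring)
    rw [← hk, mul_div_assoc, ← hS] at hwin
    have hcomb := abs_combine hs0 (by positivity : (0 : ℝ) ≤ D / l ^ 2) hδ hδ8 hwin
      (ratio_close hDpos hlpos hδ hδ8 hDD hlc)
    have c3' : (Pool.Agent.W93.PG.cnt m P₁ P₂ : ℝ) ≤ reps (family u v a b) n y₁ y₂ + 1 := by exact_mod_cast c3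
    have c4' : (reps (family u v a b) n y₁ y₂ : ℝ) ≤ Pool.Agent.W93.PG.cnt m P₁ P₂ + E := by exact_mod_cast c4
    have g1 : D / l ^ 2 ≤ S * (D / l ^ 2) := le_mul_of_one_le_left (by positivity) hs1
    have g2 : δ * (D / l ^ 2) ≤ δ * (S * (D / l ^ 2)) := mul_le_mul_of_nonneg_left g1 hδ.le
    rw [abs_le] at hcomb ⊢
    constructor
    · linarith [hcomb.1]
    · linarith [hcomb.2]
  rw [Good, ← hm, ← hl, ← hS]
  refine ⟨?_, ?_⟩
  · have h3 := (abs_le.1 (key 0 n (by omega) le_rfl (by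
      rw [Nat.cast_zero, sub_zero]
      exact div_le_self hnpos.le (one_le_pow₀ hl1)))).1
    rw [Nat.cast_zero, sub_zero] at h3
    have h4 : 0 < S * (2 * (n : ℝ) / l ^ 2) := by positivity
    have h5 : 6 * δ * (S * (2 * (n : ℝ) / l ^ 2)) ≤ 3 / 4 * (S * (2 * (n : ℝ) / l ^ 2)) :=
      mul_le_mul_of_nonneg_right (by linarith) h4.le
    have h6 : 0 < (reps (family u v a b) n 0 n : ℝ) := by linarith
    have h7 : 0 < reps (family u v a b) n 0 n := by exact_mod_cast h6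
    classical
    unfold reps at h7
    rw [card_pos] at h7
    obtain ⟨x, hx⟩ := h7
    rw [mem_filter, mem_Ioc] at hx
    refine ⟨x, n - x, hx.1.1, by omega, by omega, ?_⟩
    have e : (((n - x : ℕ) : ℤ)) = (n : ℤ) - x := by omega
    rw [e]
    exact hx.2.2
  · intro y₁ y₂ h12 hy2 hlen
    refine (key y₁ y₂ h12 hy2 hlen).trans ?_
    have h12' : (y₁ : ℝ) < y₂ := by exact_mod_cast h12
    have hpos : 0 ≤ S * (2 * ((y₂ : ℝ) - y₁) / l ^ 2) := by
      apply mul_nonneg hs0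
      apply div_nonneg (by linarith) (by positivity)
    exact mul_le_mul_of_nonneg_right hε7 hpos

/-- **Pairs of linear polynomials along `x + y = n`, residue classes of every modulus.** Let `u, v ≥ 0` be even
and `a, b` odd. The family `f₁ = (u + 2) x + u y + a`, `f₂ = v x + (v + 2) y + b` is admissible, and for all
`ε, ρ > 0`, `A`, `T` and all sufficiently large `X`: for EVERY modulus `1 ≤ q ≤ X ^ (2 / 3 - ρ)` and every
integer `c` with `gcd((u + v + 2) c + a + b, q) ≤ (log X)^T`, all but at most `X / (q (log X)^A)` of the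
positive integers `n ≤ X` with `n ≡ c (mod q)` are good. -/
theorem result (u v : ℕ) (hu : 2 ∣ u) (hv : 2 ∣ v) (a b : ℤ) (ha : Odd a) (hb : Odd b) :
    Admissible (family u v a b) ∧
    ∀ ε : ℝ, 0 < ε → ∀ ρ : ℝ, 0 < ρ → ∀ A T : ℕ, ∃ X₀ : ℕ, ∀ X : ℕ, X₀ ≤ X → ∀ q : ℕ, 1 ≤ q →
      (q : ℝ) ≤ (X : ℝ) ^ (2 / 3 - ρ) → ∀ c : ℤ,
      (Int.gcd (((u : ℤ) + v + 2) * c + a + b) q : ℝ) ≤ Real.log X ^ T →
        ((exceptional ε A u v a b X q c).ncard : ℝ) ≤ (X : ℝ) / (q * Real.log X ^ A) := by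
  classical
  refine ⟨admissible u v hu hv a b ha hb, ?_⟩
  intro ε hε ρ hρ A T
  obtain ⟨δ, hδ, N₁, hN1E, h1⟩ := good_of ε hε A u v hu hv a b ha hb
  obtain ⟨Z₀, h0⟩ := Pool.Agent.R460.GH.class_asymp (Pool.Agent.W93.PG.WinP δ (A + 1)) δ hδ (A + 1)
    ⟨0, fun n _ _ h => h⟩ (ρ / 2) (by positivity) (A + 1) (T + 1)
  obtain ⟨E, hE⟩ : ∃ E : ℕ, E = a.natAbs + b.natAbs := ⟨_, rfl⟩
  obtain ⟨K, hK⟩ : ∃ K : ℕ, K = u + v + 2 := ⟨_, rfl⟩
  obtain ⟨n1, e1⟩ := ev_log (4 * (K + 1))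
  obtain ⟨n2, e2⟩ := ev_pow A (2 * (N₁ + E + 1)) (1 / 3) (by norm_num)
  obtain ⟨n3, e3⟩ := ev_pow 0 K (ρ / 2) (by positivity)
  refine ⟨⌈Z₀⌉₊ + n1 + n2 + n3 + E + N₁ + 4, fun x hx q hq1 hq c hc => ?_⟩
  have a1 := e1 x (by omega)
  have a2 := e2 x (by omega)
  have a3 := e3 x (by omega)
  rw [pow_zero, mul_one] at a3
  have hx1 : (1 : ℝ) ≤ x := by exact_mod_cast (by omega : 1 ≤ x)
  have hx0 : (0 : ℝ) < x := by linarith
  have hq0 : (0 : ℝ) < q := by exact_mod_cast hq1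
  have hK2 : (2 : ℝ) ≤ K := by exact_mod_cast (by omega : 2 ≤ K)
  have hK1 : 1 ≤ K := by omega
  obtain ⟨X, hX⟩ : ∃ X : ℕ, X = K * x + x := ⟨_, rfl⟩
  have hxX : (x : ℝ) ≤ X := by exact_mod_cast (by rw [hX]; omega : x ≤ X)
  have hX2 : (X : ℝ) = (K + 1) * x := by rw [hX]; push_cast; ring
  have hXX : Z₀ ≤ X := by
    have h2 : (⌈Z₀⌉₊ : ℝ) ≤ X := by
      have : (⌈Z₀⌉₊ : ℝ) ≤ x := by exact_mod_cast (by omega : ⌈Z₀⌉₊ ≤ x)
      linarith
    exact (Nat.le_ceil Z₀).trans h2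
  have hlX : Real.log x ≤ Real.log X := Real.log_le_log hx0 hxX
  have hexp : (0 : ℝ) ≤ 2 / 3 - ρ := by
    by_contra hcon
    rw [not_le] at hcon
    have h2 : (1 : ℝ) < x := by exact_mod_cast (by omega : 1 < x)
    have : (x : ℝ) ^ (2 / 3 - ρ) < 1 := Real.rpow_lt_one_of_one_lt_of_neg h2 hcon
    have hq1' : (1 : ℝ) ≤ q := by exact_mod_cast hq1
    linarith
  obtain ⟨l, hl⟩ : ∃ l, l = Real.log (x : ℝ) := ⟨_, rfl⟩
  have hKl : 4 * ((K : ℝ) + 1) ≤ l := by rw [hl]; exact a1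
  have hl4 : 4 ≤ l := by linarith
  have hl0 : 0 < l := by linarith
  have hKq : ((K * q : ℕ) : ℝ) ≤ (X : ℝ) ^ (2 / 3 - ρ / 2) := by
    push_cast
    calc (K : ℝ) * q ≤ (x : ℝ) ^ (ρ / 2) * (x : ℝ) ^ (2 / 3 - ρ) := by gcongr
      _ = (x : ℝ) ^ (2 / 3 - ρ / 2) := by
          rw [← Real.rpow_add hx0]; congr 1; ring
      _ ≤ (X : ℝ) ^ (2 / 3 - ρ / 2) := Real.rpow_le_rpow hx0.le hxX (by linarith)
  have hKint : ((K : ℕ) : ℤ) = (u : ℤ) + v + 2 := by rw [hK]; push_cast; ring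
  rw [← hKint] at hc
  have hgcd : (Int.gcd ((K : ℤ) * c + a + b) (K * q : ℕ) : ℝ) ≤ Real.log X ^ (T + 1) := by
    have g1 : Int.gcd ((K : ℤ) * c + a + b) (K * q : ℕ) ≤ K * Int.gcd ((K : ℤ) * c + a + b) q := by
      have g2 : Int.gcd ((K : ℤ) * c + a + b) (K * q : ℕ) ∣
          Int.gcd ((K : ℤ) * c + a + b) K * Int.gcd ((K : ℤ) * c + a + b) q := by
        have := Int.gcd_mul_right_dvd_mul_gcd ((K : ℤ) * c + a + b) K q
        push_cast
        exact this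
      have g3 : 0 < Int.gcd ((K : ℤ) * c + a + b) K * Int.gcd ((K : ℤ) * c + a + b) q := by
        apply Nat.mul_pos
        · exact Int.gcd_pos_of_ne_zero_right _ (by omega)
        · exact Int.gcd_pos_of_ne_zero_right _ (by omega)
      refine (Nat.le_of_dvd g3 g2).trans ?_
      apply Nat.mul_le_mul_right
      apply Nat.le_of_dvd hK1
      have := Int.gcd_dvd_right ((K : ℤ) * c + a + b) (K : ℤ)
      exact_mod_cast this
    have g4 : (Int.gcd ((K : ℤ) * c + a + b) (K * q : ℕ) : ℝ) ≤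
        K * (Int.gcd ((K : ℤ) * c + a + b) q : ℝ) := by exact_mod_cast g1
    refine g4.trans ?_
    rw [← hl] at hc hlX
    have g5 : (K : ℝ) ≤ l := by linarith
    calc (K : ℝ) * (Int.gcd ((K : ℤ) * c + a + b) q : ℝ) ≤ l * l ^ T := by gcongr
      _ = l ^ (T + 1) := by ring
      _ ≤ Real.log X ^ (T + 1) := pow_le_pow_left₀ hl0.le hlX _
  obtain ⟨hf, h2⟩ := h0 X hXX (K * q) (Nat.mul_pos hK1 hq1) hKq ((K : ℤ) * c + a + b) hgcd
  obtain ⟨B, hB⟩ : ∃ B : Set ℕ, B = {n : ℕ | 0 < n ∧ (n : ℝ) ≤ X ∧ 2 ∣ n ∧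
      (n : ℤ) ≡ (K : ℤ) * c + a + b [ZMOD ((K * q : ℕ) : ℤ)] ∧
      ¬ Pool.Agent.W93.PG.WinP δ (A + 1) n} := ⟨_, rfl⟩
  rw [← hB] at hf h2
  -- the small exceptions and the large ones
  have hfin : (exceptional ε A u v a b x q c) ⊆ ((Icc 1 N₁ : Finset ℕ) : Set ℕ) ∪
      ((fun m : ℕ => (((m : ℤ) - a - b) / K).toNat) '' B) := by
    rintro n ⟨k1, k2, k3, k5⟩
    rcases Nat.lt_or_ge N₁ n with h | h
    · right
      have hMi := M_int u v a b n (by omega)
      rw [← hKint] at hMi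
      have hKn : (2 : ℤ) * n ≤ (K : ℤ) * n := by
        apply mul_le_mul_of_nonneg_right _ (by positivity)
        omega
      have hKx : (K : ℤ) * n ≤ (K : ℤ) * x := by
        apply mul_le_mul_of_nonneg_left _ (by positivity)
        omega
      refine ⟨M u v a b n, ?_, ?_⟩
      · rw [hB]
        refine ⟨by omega, ?_, ?_, ?_, ?_⟩
        · have : M u v a b n ≤ X := by
            have e : (X : ℤ) = (K : ℤ) * x + x := by rw [hX]; push_cast; ring
            omega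
          exact_mod_cast this
        · have h9 : (2 : ℤ) ∣ ((M u v a b n : ℕ) : ℤ) := by
            rw [hMi]
            obtain ⟨ta, rfl⟩ := ha
            obtain ⟨tb, rfl⟩ := hb
            have : (2 : ℤ) ∣ (K : ℤ) := by
              rw [hKint]
              exact dvd_add (dvd_add (by exact_mod_cast hu) (by exact_mod_cast hv)) (dvd_refl 2)
            obtain ⟨w, hw⟩ := this
            exact ⟨w * n + ta + tb + 1, by rw [hw]; ring⟩
          exact_mod_cast h9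
        · rw [hMi]
          have h10 : (K : ℤ) * n ≡ (K : ℤ) * c [ZMOD ((K * q : ℕ) : ℤ)] := by
            push_cast
            exact Int.ModEq.mul_left' k3
          exact (h10.add_right a).add_right b
        · exact fun hW => k5 (h1 n (by omega) hW)
      · simp only
        have e : ((M u v a b n : ℕ) : ℤ) - a - b = (K : ℤ) * n := by rw [hMi]; ring
        rw [e, Int.mul_ediv_cancel_left _ (by omega), Int.toNat_natCast]
    · left
      rw [mem_coe, mem_Icc]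
      exact ⟨k1, h⟩
  have h3 : (exceptional ε A u v a b x q c).ncard ≤ N₁ + B.ncard := by
    refine (Set.ncard_le_ncard hfin ?_).trans ((Set.ncard_union_le _ _).trans ?_)
    · exact (finite_toSet _).union (hf.image _)
    · apply add_le_add
      · rw [Set.ncard_coe_finset, Nat.card_Icc]; omega
      · exact Set.ncard_image_le hf
  have h4 : ((exceptional ε A u v a b x q c).ncard : ℝ) ≤
      N₁ + (X : ℝ) / ((K * q : ℕ) * Real.log X ^ (A + 1)) := by
    have : ((exceptional ε A u v a b x q c).ncard : ℝ) ≤ N₁ + (B.ncard : ℝ) := by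
      exact_mod_cast h3
    linarith
  refine h4.trans ?_
  rw [← hl] at a2 hlX ⊢
  -- first part
  have h5 : (N₁ : ℝ) ≤ 1 / 2 * ((x : ℝ) / (q * l ^ A)) := by
    have g1 : (q : ℝ) * x ^ (1 / 3 : ℝ) ≤ x := by
      calc (q : ℝ) * x ^ (1 / 3 : ℝ) ≤ (x : ℝ) ^ (2 / 3 - ρ) * x ^ (1 / 3 : ℝ) := by gcongr
        _ = (x : ℝ) ^ (2 / 3 - ρ + 1 / 3) := by rw [← Real.rpow_add hx0]
        _ ≤ (x : ℝ) ^ (1 : ℝ) := Real.rpow_le_rpow_of_exponent_le hx1 (by linarith)
        _ = x := Real.rpow_one _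
    have g2 : (q : ℝ) * (2 * (N₁ + E + 1) * l ^ A) ≤ x := by
      refine le_trans ?_ g1
      exact mul_le_mul_of_nonneg_left a2 hq0.le
    rw [← mul_div_assoc, le_div_iff₀ (by positivity)]
    have g3 : (0 : ℝ) ≤ q * l ^ A * (E + 1) := by positivity
    nlinarith
  have h6 : (X : ℝ) / ((K * q : ℕ) * Real.log X ^ (A + 1)) ≤ 1 / 2 * ((x : ℝ) / (q * l ^ A)) := by
    have g1 : (X : ℝ) / ((K * q : ℕ) * Real.log X ^ (A + 1)) ≤ ((K + 1) * x) / (q * l ^ (A + 1)) := by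
      obtain ⟨L, hL⟩ : ∃ L, L = Real.log (X : ℝ) := ⟨_, rfl⟩
      rw [← hL] at hlX ⊢
      rw [hX2]
      apply div_le_div_of_nonneg_left (by positivity) (by positivity)
      apply mul_le_mul _ (pow_le_pow_left₀ hl0.le hlX _) (by positivity) (by positivity)
      have : q ≤ K * q := Nat.le_mul_of_pos_left q hK1
      exact_mod_cast this
    refine g1.trans ?_
    rw [← mul_div_assoc, div_le_div_iff₀ (by positivity) (by positivity)]
    have g2 : 0 ≤ (x : ℝ) * (q * l ^ A) := by positivity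
    calc ((K : ℝ) + 1) * (x : ℝ) * (q * l ^ A) = 1 / 4 * (x * (q * l ^ A)) * (4 * (K + 1)) := by ring
      _ ≤ 1 / 4 * (x * (q * l ^ A)) * l := by gcongr
      _ ≤ 1 / 2 * (x * (q * l ^ A)) * l := by
          apply mul_le_mul_of_nonneg_right _ hl0.le
          linarith
      _ = 1 / 2 * x * (q * l ^ (A + 1)) := by ring
  linarith

end Pool.Agent.Results.MP_0da313_nt.LinearPairsEveryModulus
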