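import Pool.Agent.R490.GPj

set_option autoImplicit false

/-!
# Almost primes `|f(x, y)|` with `x + y = n` and very small `x`, for almost all `n`
-/

namespace Pool.Agent.Results.MP_0da313_nt.SmallestX

open Finset Filter Polynomial

/-- no prime divides `f(x, n - x)` for every `x` -/
def NoFixed (f : ℤ → ℤ → ℤ) (n : ℕ) : Prop := ∀ p : ℕ, p.Prime → ∃ x : ℕ, ¬ (p : ℤ) ∣ f x ((n : ℤ) - x)

open Classical in
/-- the number of the integers `1 ≤ x ≤ T` for which there is a positive integer `y` with `x + y = n` such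
that `f(x, y) ≥ 2` has at most `k` prime factors (counted with multiplicity), all of them at least `w` -/
noncomputable def smallX (f : ℤ → ℤ → ℤ) (n k : ℕ) (w T : ℝ) : ℕ :=
  ((Icc 1 ⌊T⌋₊).filter (fun x : ℕ => ∃ y N : ℕ, 1 ≤ y ∧ x + y = n ∧ (N : ℤ) = f x y ∧ 2 ≤ N ∧
    N.primeFactorsList.length ≤ k ∧ ∀ q : ℕ, q.Prime → q ∣ N → w ≤ q)).card

/-- For almost all `n` without fixed divisor, in all intervals of length `X ^ θ`, the smallest `x` give the right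
order of almost prime values. -/
def AlmostAll (f : ℤ → ℤ → ℤ) (θ : ℝ) (k : ℕ) : Prop :=
  ∀ ε : ℝ, 0 < ε → ∃ κ Λ : ℝ, 0 < κ ∧ 0 < Λ ∧ ∀ l : ℝ, Λ ≤ l → ∃ X₀ : ℕ, ∀ X : ℕ, X₀ ≤ X → ∀ Z L : ℕ,
    (X : ℝ) ^ θ ≤ L → Z + L ≤ X →
    (({n : ℕ | n ∈ Ioc Z (Z + L) ∧ NoFixed f n ∧
      (smallX f n k ((X : ℝ) ^ (θ / 10)) (l * Real.log X) : ℝ) < κ * l} : Set ℕ).ncard : ℝ) ≤ ε * L

lemma cnt_le (f : ℤ → ℤ → ℤ) (A : ℕ → ℕ) (B : ℕ → ℤ)
    (hval : ∀ j b : ℕ, (A j : ℤ) * ((j + b : ℕ) : ℤ) + B j = f j b) (n k : ℕ) (w T : ℝ)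
    (hT : (⌊T⌋₊ : ℕ) < n) : R490.LGb.cnt A B k ⌊T⌋₊ n w ≤ smallX f n k w T := by
  classical
  unfold R490.LGb.cnt smallX
  apply card_le_card
  intro j hj
  rw [mem_filter] at hj ⊢
  obtain ⟨h1, h2, h3, h4⟩ := hj
  have hj2 := mem_Icc.1 h1
  obtain ⟨b, hb⟩ : ∃ b : ℕ, n = j + b := ⟨n - j, by omega⟩
  obtain ⟨N, hN⟩ : ∃ N : ℕ, (N : ℤ) = (A j : ℤ) * n + B j :=
    ⟨((A j : ℤ) * n + B j).toNat, Int.toNat_of_nonneg (by linarith)⟩
  rw [← hN] at h2 h3 h4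
  rw [Int.toNat_natCast] at h3
  refine ⟨h1, b, N, by omega, hb.symm, ?_, by exact_mod_cast h2, h3, ?_⟩
  · rw [hN, ← hval j b, hb]
  · intro q hq hd
    exact h4 q hq (by exact_mod_cast hd)

open Classical in
lemma transfer (f : ℤ → ℤ → ℤ) (A : ℕ → ℕ) (B : ℕ → ℤ) (Adm : ℕ → Prop) (θ : ℝ) (k : ℕ) (hθ : 0 < θ)
    (hval : ∀ j b : ℕ, (A j : ℤ) * ((j + b : ℕ) : ℤ) + B j = f j b)
    (hadm : ∀ n : ℕ, 1 ≤ n → NoFixed f n → Adm n)
    (hmain : ∀ ε : ℝ, 0 < ε → ∃ κ Λ : ℝ, 0 < κ ∧ 0 < Λ ∧ ∀ l : ℝ, Λ ≤ l → ∀ᶠ X : ℕ in atTop, ∀ Z L : ℕ,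
      (X : ℝ) ^ θ ≤ L → Z + L ≤ X →
      (((Ioc Z (Z + L)).filter (fun n => Adm n ∧
        (R490.LGb.cnt A B k ⌊l * Real.log X⌋₊ n ((X : ℝ) ^ (θ / 10)) : ℝ) < κ * l)).card : ℝ) ≤ ε * L) :
    AlmostAll f θ k := by
  intro ε hε
  obtain ⟨κ, Λ, hκ, hΛ, g⟩ := hmain (ε / 2) (half_pos hε)
  refine ⟨κ, Λ, hκ, hΛ, ?_⟩
  intro l hl
  have hl0 : 0 < l := lt_of_lt_of_le hΛ hl
  have ev := Pool.Agent.TH464.PW.logpow_rpow 1 (2 * l / ε) θ (by positivity) hθ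
  obtain ⟨X₀, hX₀⟩ := eventually_atTop.1 ((g l hl).and ev)
  refine ⟨max X₀ 1, ?_⟩
  intro X hX Z L hL hZ
  have hX1 : 1 ≤ X := (le_max_right _ _).trans hX
  have b1 := (hX₀ X ((le_max_left _ _).trans hX)).1 Z L hL hZ
  have b2 := (hX₀ X ((le_max_left _ _).trans hX)).2
  rw [pow_one] at b2
  have b3 : (⌊l * Real.log X⌋₊ : ℝ) ≤ ε / 2 * L := by
    have hlog : 0 ≤ Real.log X := Real.log_nonneg (by exact_mod_cast hX1)
    refine (Nat.floor_le (by positivity)).trans ?_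
    have c1 := b2.trans hL
    rw [div_mul_eq_mul_div, div_le_iff₀ hε] at c1
    linarith
  obtain ⟨E1, hE1⟩ : ∃ E1, E1 = ((Ioc Z (Z + L)).filter (fun n => Adm n ∧
        (R490.LGb.cnt A B k ⌊l * Real.log X⌋₊ n ((X : ℝ) ^ (θ / 10)) : ℝ) < κ * l)) := ⟨_, rfl⟩
  rw [← hE1] at b1
  have hsub : ({n : ℕ | n ∈ Ioc Z (Z + L) ∧ NoFixed f n ∧
        (smallX f n k ((X : ℝ) ^ (θ / 10)) (l * Real.log X) : ℝ) < κ * l} : Set ℕ) ⊆
      ((E1 ∪ Ioc 0 ⌊l * Real.log X⌋₊ : Finset ℕ) : Set ℕ) := by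
    intro n hn
    obtain ⟨a1, a3, a2⟩ := hn
    have hn1 : 1 ≤ n := by
      have := mem_Ioc.1 a1
      omega
    rw [mem_coe, mem_union]
    rcases Nat.lt_or_ge ⌊l * Real.log X⌋₊ n with h | h
    · left
      rw [hE1, mem_filter]
      refine ⟨a1, hadm n hn1 a3, ?_⟩
      have a4 : (R490.LGb.cnt A B k ⌊l * Real.log X⌋₊ n ((X : ℝ) ^ (θ / 10)) : ℝ) ≤
          smallX f n k ((X : ℝ) ^ (θ / 10)) (l * Real.log X) := by
        exact_mod_cast cnt_le f A B hval n k ((X : ℝ) ^ (θ / 10)) (l * Real.log X) h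
      linarith
    · right
      rw [mem_Ioc]
      omega
  have h5 := Set.ncard_le_ncard hsub (Finset.finite_toSet _)
  rw [Set.ncard_coe_finset] at h5
  have h6 : ((E1 ∪ Ioc 0 ⌊l * Real.log X⌋₊).card : ℝ) ≤ E1.card + ⌊l * Real.log X⌋₊ := by
    have := card_union_le E1 (Ioc 0 ⌊l * Real.log X⌋₊)
    rw [Nat.card_Ioc, Nat.sub_zero] at this
    exact_mod_cast this
  have h7 : (({n : ℕ | n ∈ Ioc Z (Z + L) ∧ NoFixed f n ∧
        (smallX f n k ((X : ℝ) ^ (θ / 10)) (l * Real.log X) : ℝ) < κ * l} : Set ℕ).ncard : ℝ) ≤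
      (E1 ∪ Ioc 0 ⌊l * Real.log X⌋₊).card := by exact_mod_cast h5
  linarith

/-- **Almost prime values `f(x, y)`, `x + y = n`, at the smallest `x`, for almost all `n`:** the polynomials
`y + h(x)`, `x y - 1`, `x y + 1` and `x³ + x² y + y`. -/
theorem result (θ : ℝ) (k : ℕ) (hθ : 0 < θ) (hθ1 : θ ≤ 1) (hk : 1 / 8 + 25 / (12 * θ) < k) :
    (∀ h : ℤ[X], 0 < (h - X).natDegree →
      (∀ i j : ℕ, 1 ≤ i → 1 ≤ j → i ≠ j → h.eval (i : ℤ) - i ≠ h.eval (j : ℤ) - j) →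
      AlmostAll (fun x y => y + h.eval x) θ k) ∧
    AlmostAll (fun x y => x * y - 1) θ k ∧ AlmostAll (fun x y => x * y + 1) θ k ∧
    AlmostAll (fun x y => x ^ 3 + x ^ 2 * y + y) θ k := by
  refine ⟨?_, ?_, ?_, ?_⟩
  · intro h hD hinj
    refine transfer _ (fun _ => 1) (fun j => (h - X).eval (j : ℤ)) (R490.GPh.AdmP (h - X)) θ k hθ ?_ ?_ ?_
    · intro j b
      simp only [eval_sub, eval_X]
      push_cast
      ring
    · intro n _ hf p hp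
      obtain ⟨x, hx⟩ := hf p hp
      refine ⟨x, ?_⟩
      have e : (n : ℤ) + (h - X).eval (x : ℤ) = (n : ℤ) - x + h.eval (x : ℤ) := by
        simp only [eval_sub, eval_X]
        ring
      rw [e]
      exact hx
    · intro ε hε
      refine R490.GPh.mainPoly (h - X) hD ?_ θ ε k hθ hθ1 hk hε
      intro i j h1 h2 hne
      simp only [eval_sub, eval_X]
      exact hinj i j h1 h2 hne
  · refine transfer _ R490.GPi.Am (R490.GPi.Bm (-1)) R490.GPi.AdmAll θ k hθ ?_ (fun n _ _ => Nat.zero_le n) ?_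
    · intro j b
      unfold R490.GPi.Am R490.GPi.Bm
      push_cast
      ring
    · intro ε hε
      exact R490.GPi.mainM (-1) (Or.inr rfl) θ ε k hθ hθ1 hk hε
  · refine transfer _ R490.GPi.Am (R490.GPi.Bm 1) R490.GPi.AdmAll θ k hθ ?_ (fun n _ _ => Nat.zero_le n) ?_
    · intro j b
      unfold R490.GPi.Am R490.GPi.Bm
      push_cast
      ring
    · intro ε hε
      exact R490.GPi.mainM 1 (Or.inl rfl) θ ε k hθ hθ1 hk hε
  · refine transfer _ R490.GPj.An R490.GPj.Bn R490.GPj.AdmN θ k hθ ?_ (fun n hn _ => hn) ?_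
    · intro j b
      unfold R490.GPj.An R490.GPj.Bn
      push_cast
      ring
    · intro ε hε
      exact R490.GPj.mainN θ ε k hθ hθ1 hk hε

end Pool.Agent.Results.MP_0da313_nt.SmallestX
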